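import Mathlib
import Pool.Agent.Results.MP_c1eef4_lc.AutostableTypeFunction
import Pool.Agent.Y670.TF.Red

set_option autoImplicit false

/-!
A countably categorical theory `T` with a computable autostable model, such that `T` is computable
in `0'` and the type function of `T` together with `0'` computes `0''`.
-/

namespace Pool.Agent.Results.MP_c1eef4_lc.MaximalTypeFunction

open Pool.Agent.Helper750.CT Pool.Agent.Helper750.DC Pool.Agent.Helper446.RE
open Pool.Agent.Results.MP_c1eef4_lc.AutostableTypeFunction (iso_symm iso_trans comp_inv)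
open Pool.Agent.Y670.TF

/-- an oracle which computes the set of the codes with finite domain computes all `Σ⁰_2` sets -/
theorem sigma_of_fin {O : ℕ → ℕ} (h : TLe (chi {k | {u | evD k u = true}.Finite}) O) (P : Set ℕ)
    (hP : SigmaTwo P) : TLe (chi P) O := by
  classical
  obtain ⟨g, hg, hgP⟩ := sigma_red hP
  have h1 : Pool.Agent.Helper743.TR (chi {k | {u | evD k u = true}.Finite}) O :=
    Pool.Agent.Helper743.TR_iff.2 h
  refine Pool.Agent.Helper743.TR_iff.1 ?_
  have h2 : Pool.Agent.Helper743.RecT {((O : ℕ → ℕ) : ℕ →. ℕ)} (fun n : ℕ =>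
      chi {k | {u | evD k u = true}.Finite} (g n)) :=
    Pool.Agent.Helper743.RecT.comp h1 (Pool.Agent.Helper743.Computable.recT hg)
  refine Nat.RecursiveIn.of_eq h2 ?_
  intro n
  congr 1
  show (if g n ∈ {k | {u | evD k u = true}.Finite} then 1 else 0) = if n ∈ P then 1 else 0
  have e : g n ∈ {k | {u | evD k u = true}.Finite} ↔ n ∈ P :=
    (evD_finite (g n)).trans (hgP n).symm
  by_cases h3 : n ∈ P
  · rw [if_pos (e.2 h3), if_pos h3]
  · rw [if_neg (fun h => h3 (e.1 h)), if_neg h3]

/-- There is a countably categorical theory `T` with a computable model, such that `T` is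
computable in `0'`, any two computable models of `T` are computably isomorphic, and the type
function of `T` has the largest possible complexity: together with `0'` it computes `0''`, that
is, every oracle `O` which computes `0'` and the type function of `T` computes every `Σ⁰_2` set. In
particular the type function of `T` is not computable in `0'`. -/
theorem result : ∃ (L : Lang) (T : Set Fml), L.IsComputable ∧ IsComplete T ∧
    -- `T` has a computable model
    (∃ A, IsComputableStr L A ∧ IsModel L T A) ∧
    -- `T` is countably categorical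
    (∀ A B, IsModel L T A → IsModel L T B → ∃ f, IsIso L A B f) ∧
    -- `T` is computable in `0'`
    TLe (chi (codes T)) (chi K) ∧
    -- the type function of `T` is not computable in `0'`
    (∀ n, (types L T n).Finite) ∧ ¬ TLe (typeFn L T) (chi K) ∧
    -- the type function of `T` together with `0'` computes `0''`
    (∀ O : ℕ → ℕ, TLe (chi K) O → TLe (typeFn L T) O → ∀ P, SigmaTwo P → TLe (chi P) O) ∧
    -- the countable model of `T` is autostable
    ∀ A B, IsComputableStr L A → IsComputableStr L B → IsModel L T A → IsModel L T B →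
      ∃ f, Computable f ∧ IsIso L A B f := by
  have hev := evD_computable
  have hG := gen evD
  have hpp := pp_comp evD hev
  have hM : IsComputableStr LL (MM evD) := MS_comp _ _ hpp ar_comp
  have hd : TLe (fun n => Encodable.encode (dd (pp evD) ar n)) (chi K) :=
    dd_K _ _ hpp ar_comp (pp_convex evD)
  have hfin : ∀ k, {q | ∃ x, q = tp LL (MM evD) k x}.Finite := fin_types hG
  have hcat : ∀ B, IsModel LL (Th LL (MM evD)) B → ∃ f, IsIso LL (MM evD) B f := ryll _ hfin
  have htypes : ∀ k, types LL (Th LL (MM evD)) k = {q | ∃ x, q = tp LL (MM evD) k x} :=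
    types_eq _ hfin
  have htf : (fun k => {q | ∃ x, q = tp LL (MM evD) k x}.ncard) =
      typeFn LL (Th LL (MM evD)) := by
    funext k
    unfold typeFn
    rw [htypes]
  -- an oracle computing `0'` and the type function computes the finiteness of domains
  have main : ∀ O : ℕ → ℕ, TLe (chi K) O → TLe (typeFn LL (Th LL (MM evD))) O →
      TLe (chi {k | {u | evD k u = true}.Finite}) O := by
    intro O hK ht
    have ht' : TLe (fun k => {q | ∃ x, q = tp LL (MM evD) k x}.ncard) O := by
      rw [htf]
      exact ht
    have h2 := range_O O _ _ _ hG hM (hd.trans hK) hfin (fun k x y => tp_eq_iff hG hG k x y) ht'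
    have h3 := locs_O O _ h2
    have h4 : {k | {u | evD k u = true}.Finite} =
        {k | ∃ m ∈ locs k, m ∈ {m | ∃ n, dd (pp evD) ar n = some m}} := by
      ext k
      exact code_iff evD k
    rw [h4]
    exact h3
  refine ⟨LL, Th LL (MM evD), ⟨?_, ?_⟩, Th_complete _, ⟨MM evD, hM, fun φ hφ => hφ.2⟩, ?_, ?_, ?_,
    ?_, ?_, ?_⟩
  · exact Computable.option_some
  · exact Computable.const _
  · intro A B hA hB
    obtain ⟨f, hf⟩ := hcat A hA
    obtain ⟨g, hg⟩ := hcat B hB
    obtain ⟨f', hf1, hf2⟩ := Function.bijective_iff_has_inverse.1 hf.1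
    exact ⟨_, iso_trans (iso_symm hf hf1 hf2) hg⟩
  · exact Th_K _ _ _ hG hM hd fun φ N V x y h1 h2 h3 => qe hG hG φ N V x y h1 h2 h3
  · intro n
    rw [htypes]
    exact hfin n
  · intro ht
    exact evD_not (main (chi K) (TuringReducible.refl _) ht)
  · intro O hK ht P hP
    exact sigma_of_fin (main O hK ht) P hP
  · intro A B hA hB hA' hB'
    obtain ⟨f0, hf0⟩ := hcat A hA'
    obtain ⟨g0, hg0⟩ := hcat B hB'
    obtain ⟨f, hf, hf2⟩ := auto evD hev A hA f0 hf0
    obtain ⟨g, hg, hg2⟩ := auto evD hev B hB g0 hg0
    obtain ⟨f', hf', h1, h2⟩ := comp_inv hf hf2.1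
    exact ⟨fun a => g (f' a), hg.comp hf', iso_trans (iso_symm hf2 h1 h2) hg2⟩

end Pool.Agent.Results.MP_c1eef4_lc.MaximalTypeFunction
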